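import Mathlib

/-!
# Project PC: the parity conjecture for `y² + D y = x³` over the fields inside `ℚ(ω, ∛l : l ∈ M)`
and over towers of Galois extensions of odd degree above them (definitions and statements)
-/

set_option autoImplicit false

namespace Pool.Agent.E8helper49.PC

open NumberField

/-- `Ω` is generated by `ω` and cube roots of the elements of `M`. -/
def Clo (M : Finset ℕ) (Ω : Type) [Field Ω] : Prop :=
  ∃ (ω : Ω) (r : ℕ → Ω), ω ^ 2 + ω + 1 = 0 ∧ (∀ l ∈ M, r l ^ 3 = (l : Ω)) ∧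
    ∀ S : Subfield Ω, ω ∈ S → (∀ l ∈ M, r l ∈ S) → S = ⊤

/-- the curve `y² + D y = x³` over `L` -/
def crv (D : ℕ) (L : Type) [Field L] : WeierstrassCurve L := ⟨0, 0, (D : L), 0, 0⟩

section nf

variable (K : Type) [Field K] [NumberField K]

/-- the number of the infinite places -/
noncomputable def nA : ℕ := Nat.card (InfinitePlace K)

/-- the number of the primes above `3` with even ramification index over `ℚ` -/
noncomputable def nB : ℕ :=
  Nat.card {P : Ideal (𝓞 K) // P.IsPrime ∧ (3 : 𝓞 K) ∈ P ∧ Even (P.ramificationIdx ℤ)}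

/-- the number of the primes above `q` whose norm is `2` modulo `3` -/
noncomputable def nC (q : ℕ) : ℕ :=
  Nat.card {P : Ideal (𝓞 K) // P.IsPrime ∧ (q : 𝓞 K) ∈ P ∧ Nat.card (𝓞 K ⧸ P) % 3 = 2}

open Classical in
/-- the local root number of `y² + D y = x³` at the prime `P` -/
noncomputable def loc (D : ℕ) (P : Ideal (𝓞 K)) : ℤ :=
  if (3 : 𝓞 K) ∈ P then (if Even (P.ramificationIdx ℤ) then -1 else 1)
  else if (D : 𝓞 K) ∈ P ∧ Nat.card (𝓞 K ⧸ P) % 3 = 2 then -1 else 1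

/-- the root number of `y² + D y = x³` over `K` -/
noncomputable def rootNumber (D : ℕ) : ℤ :=
  (-1) ^ Nat.card (InfinitePlace K) *
    ∏ᶠ P : {P : Ideal (𝓞 K) // P.IsPrime ∧ P ≠ ⊥}, loc K D P.1

open Classical in
/-- the rank over `K` -/
noncomputable def rankE (D : ℕ) : ℕ := Module.finrank ℤ (crv D K).toAffine.Point

end nf

/-- ROOT: the root number in terms of the three numbers. -/
def S_ROOT : Prop :=
  ∀ (K : Type) [Field K] [NumberField K] (D q : ℕ), D ≠ 0 → q.Prime → q % 3 = 2 → q ∣ D →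
    (∀ p : ℕ, p.Prime → p ∣ D → p ≠ q → p % 3 = 1) →
    rootNumber K D = (-1) ^ (nA K + nB K + nC K q)

/-- STEPA -/
def S_STEPA : Prop :=
  ∀ (K L : Type) [Field K] [NumberField K] [Field L] [NumberField L] [Algebra K L] [IsGalois K L],
    Odd (Module.finrank K L) → Even (nA L + nA K)

/-- STEPB -/
def S_STEPB : Prop :=
  ∀ (K L : Type) [Field K] [NumberField K] [Field L] [NumberField L] [Algebra K L] [IsGalois K L],
    Odd (Module.finrank K L) → Even (nB L + nB K)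

/-- STEPC -/
def S_STEPC : Prop :=
  ∀ (K L : Type) [Field K] [NumberField K] [Field L] [NumberField L] [Algebra K L] [IsGalois K L],
    Odd (Module.finrank K L) → ∀ q : ℕ, q.Prime → q % 3 = 2 → Even (nC L q + nC K q)

/-- RANK: the parity of the rank in Galois extensions of odd degree. -/
def S_RANK : Prop :=
  ∀ (K L : Type) [Field K] [NumberField K] [Field L] [NumberField L] [Algebra K L] [IsGalois K L],
    Odd (Module.finrank K L) → ∀ D : ℕ, D ≠ 0 → Even (rankE L D + rankE K D)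

open Classical in
/-- FG: the Mordell-Weil theorem for these curves over number fields. -/
def S_FG : Prop :=
  ∀ (K : Type) [Field K] [NumberField K] (D : ℕ), D ≠ 0 →
    Module.Finite ℤ (crv D K).toAffine.Point

/-- GRP: the Galois group of `Ω`. -/
def S_GRP : Prop :=
  ∀ (M : Finset ℕ) (Ω : Type) [Field Ω] [NumberField Ω], (∀ l ∈ M, 0 < l) → Clo M Ω →
    IsGalois ℚ Ω ∧ ∀ ω : Ω, ω ^ 2 + ω + 1 = 0 →
      (∀ σ : Ω ≃ₐ[ℚ] Ω, σ ω ≠ ω → σ * σ = 1) ∧ (∀ σ : Ω ≃ₐ[ℚ] Ω, σ ω = ω → σ * σ * σ = 1) ∧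
      ∃ σ : Ω ≃ₐ[ℚ] Ω, σ ω ≠ ω

/-- SPLIT: the decomposition groups above `3` meet the automorphisms that fix `ω` trivially. -/
def S_SPLIT : Prop :=
  ∀ (M : Finset ℕ) (Ω : Type) [Field Ω] [NumberField Ω], (∀ l ∈ M, l.Prime ∧ l % 9 = 1) →
    Clo M Ω → ∀ ω : Ω, ω ^ 2 + ω + 1 = 0 → ∀ P : Ideal (𝓞 Ω), P.IsPrime → (3 : 𝓞 Ω) ∈ P →
      ∀ σ : Ω ≃ₐ[ℚ] Ω, (∀ x y : 𝓞 Ω, (y : Ω) = σ (x : Ω) → x ∈ P → y ∈ P) → σ ω = ω → σ = 1

/-- INV: group theory. `N` is a subgroup of index two, the elements outside `N` are involutions and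
those of `N` have order one or three: `t` outside `N` commutes only with `1` and `t`, and two elements
outside `N` are conjugate by their product. -/
def S_INV : Prop :=
  ∀ (G : Type) [Group G] (N : Subgroup G), (∀ g : G, g ∉ N → g * g = 1) →
    (∀ g : G, g ∈ N → g * g * g = 1) → (∀ g h : G, g ∉ N → h ∉ N → g * h ∈ N) →
    (∀ t g : G, t ∉ N → g * t = t * g → g = 1 ∨ g = t) ∧
    ∀ t u : G, t ∉ N → u ∉ N → (t * u) * t * (t * u)⁻¹ = u

/-- DEG: the degree of a field inside `Ω` that does not contain `ω` is odd. -/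
def S_DEG : Prop :=
  ∀ (M : Finset ℕ) (Ω : Type) [Field Ω] [NumberField Ω], (∀ l ∈ M, l.Prime ∧ l % 9 = 1) →
    Clo M Ω → ∀ (F : Type) [Field F] [NumberField F], Nonempty (F →+* Ω) →
      (¬ ∃ x : F, x ^ 2 + x + 1 = 0) → Odd (Module.finrank ℚ F)

/-- INF1: a field inside `Ω` has at most one real embedding. -/
def S_INF1 : Prop :=
  ∀ (M : Finset ℕ) (Ω : Type) [Field Ω] [NumberField Ω], (∀ l ∈ M, l.Prime ∧ l % 9 = 1) →
    Clo M Ω → ∀ (F : Type) [Field F] [NumberField F], Nonempty (F →+* Ω) →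
      Subsingleton (F →+* ℝ)

/-- THR1: the primes above `3` of a field inside `Ω`. -/
def S_THR1 : Prop :=
  ∀ (M : Finset ℕ) (Ω : Type) [Field Ω] [NumberField Ω], (∀ l ∈ M, l.Prime ∧ l % 9 = 1) →
    Clo M Ω → ∀ (F : Type) [Field F] [NumberField F], Nonempty (F →+* Ω) →
      ∀ P : Ideal (𝓞 F), P.IsPrime → (3 : 𝓞 F) ∈ P →
        P.inertiaDeg ℤ = 1 ∧ (P.ramificationIdx ℤ = 1 ∨ P.ramificationIdx ℤ = 2) ∧
        ((∃ x : F, x ^ 2 + x + 1 = 0) → P.ramificationIdx ℤ = 2)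

/-- THR2: a field inside `Ω` has at most one unramified prime above `3`. -/
def S_THR2 : Prop :=
  ∀ (M : Finset ℕ) (Ω : Type) [Field Ω] [NumberField Ω], (∀ l ∈ M, l.Prime ∧ l % 9 = 1) →
    Clo M Ω → ∀ (F : Type) [Field F] [NumberField F], Nonempty (F →+* Ω) →
      ∀ P Q : Ideal (𝓞 F), P.IsPrime → (3 : 𝓞 F) ∈ P → Q.IsPrime → (3 : 𝓞 F) ∈ Q →
        P.ramificationIdx ℤ = 1 → Q.ramificationIdx ℤ = 1 → P = Q

/-- INF: the infinite places of a field `F` inside `Ω`. -/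
def S_INF : Prop :=
  ∀ (M : Finset ℕ) (Ω : Type) [Field Ω] [NumberField Ω], (∀ l ∈ M, l.Prime ∧ l % 9 = 1) →
    Clo M Ω → ∀ (F : Type) [Field F] [NumberField F], Nonempty (F →+* Ω) →
      ((∃ x : F, x ^ 2 + x + 1 = 0) → 2 * nA F = Module.finrank ℚ F) ∧
      ((¬ ∃ x : F, x ^ 2 + x + 1 = 0) → 2 * nA F = Module.finrank ℚ F + 1)

/-- THREE: the primes above `3` of a field `F` inside `Ω`. -/
def S_THREE : Prop :=
  ∀ (M : Finset ℕ) (Ω : Type) [Field Ω] [NumberField Ω], (∀ l ∈ M, l.Prime ∧ l % 9 = 1) →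
    Clo M Ω → ∀ (F : Type) [Field F] [NumberField F], Nonempty (F →+* Ω) →
      ((∃ x : F, x ^ 2 + x + 1 = 0) → 2 * nB F = Module.finrank ℚ F) ∧
      ((¬ ∃ x : F, x ^ 2 + x + 1 = 0) → 2 * nB F + 1 = Module.finrank ℚ F)

/-- CEE: the primes above `q` of a field `F` inside `Ω`. -/
def S_CEE : Prop :=
  ∀ (M : Finset ℕ) (Ω : Type) [Field Ω] [NumberField Ω], (∀ l ∈ M, l.Prime ∧ l % 9 = 1) →
    Clo M Ω → ∀ (F : Type) [Field F] [NumberField F], Nonempty (F →+* Ω) →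
      ∀ q : ℕ, q.Prime → q % 3 = 2 →
      ((∃ x : F, x ^ 2 + x + 1 = 0) → nC F q = 0) ∧
      ((¬ ∃ x : F, x ^ 2 + x + 1 = 0) → Odd (nC F q))

end Pool.Agent.E8helper49.PC
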