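import Mathlib
import Pool.Agent.E8helper49.PC.Stm

/-!
# Project PC: the main argument
-/

set_option autoImplicit false

namespace Pool.Agent.E8helper49.PC

open NumberField

/-- `K` can be embedded in a field `ℚ(ω, ∛l : l ∈ M)`. -/
def Ins (M : Finset ℕ) (K : Type) [Field K] : Prop :=
  ∃ (Ω : Type) (_ : Field Ω) (_ : NumberField Ω), Clo M Ω ∧ Nonempty (K →+* Ω)

/-- Towers of Galois extensions of odd degree above the fields of `Ins M`. -/
inductive Tow (M : Finset ℕ) : (K : Type) → [Field K] → [NumberField K] → Prop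
  | base (K : Type) [Field K] [NumberField K] (h : Ins M K) : Tow M K
  | step (K L : Type) [Field K] [NumberField K] [Field L] [NumberField L] [Algebra K L]
      [IsGalois K L] (h : Tow M K) (hodd : Odd (Module.finrank K L)) : Tow M L

lemma parity_tow (hA : S_STEPA) (hB : S_STEPB) (hC : S_STEPC) (hI : S_INF) (hT : S_THREE)
    (hE : S_CEE) {M : Finset ℕ} (hM : ∀ l ∈ M, l.Prime ∧ l % 9 = 1) {q : ℕ} (hq : q.Prime)
    (hq3 : q % 3 = 2) (K : Type) [Field K] [NumberField K] (h : Tow M K) :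
    Even (nA K + nB K + nC K q) := by
  induction h with
  | base K h =>
    obtain ⟨Ω, i1, i2, h1, h2⟩ := h
    obtain ⟨a1, a2⟩ := hI M Ω hM h1 K h2
    obtain ⟨b1, b2⟩ := hT M Ω hM h1 K h2
    obtain ⟨c1, c2⟩ := hE M Ω hM h1 K h2 q hq hq3
    by_cases h3 : ∃ x : K, x ^ 2 + x + 1 = 0
    · have := a1 h3
      have := b1 h3
      rw [c1 h3, add_zero]
      exact ⟨nA K, by omega⟩
    · have := a2 h3
      have := b2 h3
      obtain ⟨k, hk⟩ := c2 h3
      exact ⟨nB K + k + 1, by omega⟩
  | step K L h hodd ih =>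
    have h1 := hA K L hodd
    have h2 := hB K L hodd
    have h3 := hC K L hodd q hq hq3
    rw [Nat.even_iff] at *
    omega

open Classical in
lemma rank_tow (hR : S_RANK) {M : Finset ℕ} {D : ℕ} (hD : D ≠ 0)
    (h0 : ∀ (F : Type) [Field F] [NumberField F], Ins M F → Finite (crv D F).toAffine.Point)
    (K : Type) [Field K] [NumberField K] (h : Tow M K) : Even (rankE K D) := by
  induction h with
  | base K h =>
    have h1 := h0 K h
    have h2 : rankE K D = 0 := by
      unfold rankE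
      refine Module.finrank_eq_zero_iff_isTorsion.2 ?_
      intro x
      have h3 : (addOrderOf x : ℤ) ≠ 0 := by
        have := addOrderOf_pos x
        omega
      refine ⟨⟨(addOrderOf x : ℤ), mem_nonZeroDivisors_of_ne_zero h3⟩, ?_⟩
      show (addOrderOf x : ℤ) • x = 0
      rw [natCast_zsmul]
      exact addOrderOf_nsmul_eq_zero x
    rw [h2]
    exact Even.zero
  | step K L h hodd ih =>
    have h1 := hR K L hodd D hD
    rw [Nat.even_iff] at *
    omega

theorem root_tow (hRoot : S_ROOT) (hA : S_STEPA) (hB : S_STEPB) (hC : S_STEPC) (hI : S_INF)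
    (hT : S_THREE) (hE : S_CEE) {M : Finset ℕ} (hM : ∀ l ∈ M, l.Prime ∧ l % 9 = 1) {D q : ℕ}
    (hD : D ≠ 0) (hq : q.Prime) (hq3 : q % 3 = 2) (hqD : q ∣ D)
    (hp : ∀ p : ℕ, p.Prime → p ∣ D → p ≠ q → p % 3 = 1)
    (K : Type) [Field K] [NumberField K] (h : Tow M K) : rootNumber K D = 1 := by
  rw [hRoot K D q hD hq hq3 hqD hp]
  exact Even.neg_one_pow (parity_tow hA hB hC hI hT hE hM hq hq3 K h)

end Pool.Agent.E8helper49.PC
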